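import Mathlib
import Pool.Agent.H26.IEOp

namespace Pool.Agent.Results.MP_b124ce_co.RestrictionFailsH

/-- `f` is an IE-operator on the ground set `S`: it maps subsets of `S` to subsets of `S` and
satisfies (cl1), (cl2), (cl3), (cl4'). -/
def IsIE {α : Type} (S : Set α) (f : Set α → Set α) : Prop :=
  (∀ X, X ⊆ S → f X ⊆ S) ∧
  (∀ X, X ⊆ S → X ⊆ f X) ∧
  (∀ X Y, X ⊆ Y → Y ⊆ S → f X ⊆ f Y) ∧
  (∀ X, X ⊆ S → f (f X) = f X) ∧
  (∀ X Y, X ⊆ S → Y ⊆ S → ∀ p, p ∈ f Y → p ∉ f (Y \ X) →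
    ∃ x ∈ X, x ∈ f (insert p (Y \ {x})))

/-- Condition (C) on the ground set `S`. -/
def CondC {α : Type} (S : Set α) (f : Set α → Set α) : Prop :=
  ∀ Y, Y ⊆ S → ∀ p ∈ f Y, ∃ U : Set α,
    Minimal (fun W : Set α => W ⊆ Y ∧ p ∈ f W) U ∧ ∀ x ∈ U, x ∉ f (U \ {x})

/-- Condition (H) on the ground set `S`. -/
def CondH {α : Type} (S : Set α) (f : Set α → Set α) : Prop :=
  ∀ Y, Y ⊆ S → ∀ p ∈ S, p ∉ f Y → ∃ V : Set α,
    Maximal (fun W : Set α => Y ⊆ W ∧ W ⊆ S ∧ p ∉ f W) V ∧ f (insert p V) = S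

/-- The restriction `f_X (Y) = f (Y) ∩ X`. -/
def restr {α : Type} (f : Set α → Set α) (X : Set α) : Set α → Set α := fun Y => f Y ∩ X

open Pool.Agent.H26.IEOp in
theorem result : ∃ (α : Type) (S : Set α) (f : Set α → Set α) (X : Set α),
    IsIE S f ∧ CondC S f ∧ CondH S f ∧ X ⊆ S ∧ ¬ CondH X (restr f X) := by
  obtain ⟨𝓑, hg, h0, hc, hY⟩ := exists_family
  refine ⟨Gd, Set.univ, op 𝓑, J ∪ Set.range mid, ⟨fun _ _ => Set.subset_univ _,
    fun X _ => op_ext 𝓑 X, fun X Y hXY _ => op_mono 𝓑 hXY, fun X _ => op_idem 𝓑 X,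
    fun X Y _ _ p h1 h2 => op_cl4 hg X Y p h1 h2⟩, fun Y _ p hp => op_C hg h0 Y p hp, ?_,
    Set.subset_univ _, ?_⟩
  · intro Y _ p _ hp
    obtain ⟨V, hV, hV'⟩ := op_H hg hc Y p hp
    refine ⟨V, ?_, hV'⟩
    simpa using hV
  · intro h
    have hJ : ¬ ∃ B ∈ 𝓑, B ⊆ J := by
      rintro ⟨B, hB, hBJ⟩
      exact Set.not_infinite.2 Set.finite_empty
        ((hY ∅).1 ⟨B, hB, hBJ.trans Set.subset_union_left⟩)
    obtain ⟨V, hV, hV'⟩ := h J Set.subset_union_left (mid 0) (Or.inr ⟨0, rfl⟩) (by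
      simp only [restr, op_nspan hJ]
      exact fun hc => mid_not_J 0 hc.1)
    obtain ⟨h1, h2, h3⟩ := hV.prop
    have e := between h1 h2
    have hfin : {n | mid n ∈ V}.Finite := by
      by_contra hinf
      obtain ⟨B, hB, hBs⟩ := (hY _).2 hinf
      rw [← e] at hBs
      exact h3 ⟨Or.inr ⟨B, hB, hBs⟩, Or.inr ⟨0, rfl⟩⟩
    have e2 : insert (mid 0) V = J ∪ mid '' (insert 0 {n | mid n ∈ V}) := by
      rw [Set.image_insert_eq, Set.union_insert, ← e]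
    have hns : ¬ ∃ B ∈ 𝓑, B ⊆ insert (mid 0) V := by
      rw [e2]
      exact fun hc => (hY _).1 hc (hfin.insert 0)
    simp only [restr, op_nspan hns] at hV'
    obtain ⟨n, hn⟩ := (hfin.insert 0).infinite_compl.nonempty
    have : mid n ∈ insert (mid 0) V ∩ (J ∪ Set.range mid) := by
      rw [hV']; exact Or.inr ⟨n, rfl⟩
    rcases this.1 with h4 | h4
    · exact hn (Or.inl (mid_inj h4))
    · exact hn (Or.inr h4)

end Pool.Agent.Results.MP_b124ce_co.RestrictionFailsH
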